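import Mathlib

/-!
# Project EO (MP_0f290c_co): edge-orbits of graphs representing groups

Interface.  For every infinite cardinal `κ₀` there is `κ ≥ κ₀` and a nilpotent group of class two of
cardinality `> κ` with a central involution `z` such that every subgroup avoiding `z` has
cardinality `≤ κ`; the automorphism group of a graph with at most `κ` edge orbits is never of this
kind.
-/

set_option autoImplicit false

open Cardinal

namespace Pool.Agent.K1H95.EO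

/-! ## The graph part -/

/-- Neighbourhoods of points moved by `z` are small. -/
def S_NB : Prop := ∀ (κ : Cardinal.{0}) (V : Type) (X : SimpleGraph V) (z : X ≃g X),
  ℵ₀ ≤ κ → (∀ H : Subgroup (X ≃g X), z ∉ H → #H ≤ κ) →
  ∀ S : Set (Sym2 V),
    (∀ e ∈ X.edgeSet, ∃ s ∈ S, ∃ φ : X ≃g X, Sym2.map (⇑φ) s = e) → #S ≤ κ →
  ∀ w : V, z w ≠ w → #{u : V | X.Adj w u} ≤ κ

/-- Reachable sets of a relation with small neighbourhoods are small. -/
def S_REACH : Prop := ∀ (κ : Cardinal.{0}) (V : Type) (r : V → V → Prop),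
  ℵ₀ ≤ κ → (∀ w : V, #{u : V | r w u} ≤ κ) →
  ∀ v : V, #{u : V | Relation.ReflTransGen r v u} ≤ κ

/-- The partial rotation: `z` on `D`, the identity outside. -/
def S_SWAP : Prop := ∀ (V : Type) (X : SimpleGraph V) (z : X ≃g X) (D : Set V),
  (∀ u : V, z u ∈ D ↔ u ∈ D) →
  (∀ u ∈ D, ∀ w : V, X.Adj u w → z w ≠ w → w ∈ D) →
  ∃ τ : X ≃g X, (∀ u ∈ D, τ u = z u) ∧ (∀ u, u ∉ D → τ u = u)

/-- The graph theorem. -/
def S_GRAPH : Prop := ∀ (κ : Cardinal.{0}) (V : Type) (X : SimpleGraph V) (z : X ≃g X),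
  ℵ₀ ≤ κ → κ < #(X ≃g X) → (∀ g : X ≃g X, g * z = z * g) → z ≠ 1 →
  (∀ H : Subgroup (X ≃g X), z ∉ H → #H ≤ κ) →
  ∀ S : Set (Sym2 V),
    (∀ e ∈ X.edgeSet, ∃ s ∈ S, ∃ φ : X ≃g X, Sym2.map (⇑φ) s = e) → κ < #S

/-! ## Bilinear sums -/

/-- The bilinear form with kernel `k` on finitely supported integer functions. -/
noncomputable def Bil {I : Type} (k : I → I → ℚ) (a b : I →₀ ℤ) : ℚ :=
  a.sum fun x m => b.sum fun y n => (m : ℚ) * (n : ℚ) * k x y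

/-- The `ℓ¹` norm. -/
noncomputable def nrm {I : Type} (a : I →₀ ℤ) : ℕ := a.sum fun _ n => n.natAbs

/-- The prefix of length `n` of `x`, as a list. -/
def pre {E : Type} (n : ℕ) (x : ℕ → E) : List E := PiNat.res x n

/-- The level `n` type of `a`. -/
noncomputable def typ {E I : Type} (c : I → ℕ → E) (n : ℕ) (a : I →₀ ℤ) : List E →₀ ℤ :=
  a.mapDomain fun i => pre n (c i)

/-- The kernel `2 ^ (- first difference)`. -/
noncomputable def K {E I : Type} (c : I → ℕ → E) (x y : I) : ℚ :=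
  (1 / 2 : ℚ) ^ PiNat.firstDiff (c x) (c y)

/-- The form is a function of the types if the kernel depends only on prefixes. -/
def S_TYP : Prop := ∀ (I J : Type) (p : I → J) (k : J → J → ℚ) (a b : I →₀ ℤ),
  Bil (fun x y => k (p x) (p y)) a b = Bil k (a.mapDomain p) (b.mapDomain p)

/-- Bound of a form. -/
def S_BND : Prop := ∀ (I : Type) (k : I → I → ℚ) (a b : I →₀ ℤ) (C : ℚ), 0 ≤ C →
  (∀ x ∈ a.support, ∀ y ∈ b.support, |k x y| ≤ C) →
  |Bil k a b| ≤ C * (nrm a : ℚ) * (nrm b : ℚ)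

/-- The equality kernel. -/
def S_SQ : Prop := ∀ (J : Type) (d : J → J → ℚ), (∀ x, d x x = 1) → (∀ x y, x ≠ y → d x y = 0) →
  ∀ a : J →₀ ℤ, 0 ≤ Bil d a a ∧ (a ≠ 0 → 1 ≤ Bil d a a) ∧ Bil d a a ≤ (nrm a : ℚ) ^ 2

/-- `mapDomain` does not increase the norm. -/
def S_MD : Prop := ∀ (I J : Type) (p : I → J) (a : I →₀ ℤ), nrm (a.mapDomain p) ≤ nrm a

/-- Types at lower levels, and separation. -/
def S_LEV : Prop := ∀ (E I : Type) (c : I → ℕ → E), Function.Injective c → ∀ a : I →₀ ℤ,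
  (∀ m n : ℕ, m ≤ n → typ c n a = 0 → typ c m a = 0) ∧ (a ≠ 0 → ∃ n, typ c n a ≠ 0)

/-- The estimate. -/
def S_KER : Prop := ∀ (E I : Type) (c : I → ℕ → E) (a b : I →₀ ℤ) (N L j M : ℕ),
  Function.Injective c →
  (∀ x ∈ a.support, ∀ y ∈ b.support, x ≠ y) →
  typ c M a = typ c M b → typ c L a = 0 → typ c j a ≠ 0 → j ≤ M →
  nrm a ≤ N → nrm b ≤ N → 2 * N ^ 2 < 2 ^ L → N ^ 2 * 2 ^ j < 2 ^ M →
  -1 < Bil (K c) a b ∧ Bil (K c) a b < 0

/-! ## Cardinal combinatorics -/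

/-- Pigeonhole. -/
def S_PIG : Prop := ∀ (κ : Cardinal.{0}) (α β : Type) (f : α → β) (F : Set α),
  ℵ₀ ≤ κ → #β ≤ κ → κ < #F → ∃ b : β, κ < #{v : α | v ∈ F ∧ f v = b}

/-- Two different good elements. -/
def S_GOOD : Prop := ∀ (κ : Cardinal.{0}) (α β : Type) (f : ℕ → α → β) (F : Set α),
  ℵ₀ ≤ κ → #β ≤ κ → κ < #F →
  ∃ v ∈ F, ∃ v' ∈ F, v ≠ v' ∧ (∀ M, κ < #{w : α | w ∈ F ∧ f M w = f M v}) ∧
    (∀ M, κ < #{w : α | w ∈ F ∧ f M w = f M v'})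

/-- The root lemma. -/
def S_ROOT : Prop := ∀ (κ : Cardinal.{0}) (I : Type) [LinearOrder I], ℵ₀ ≤ κ →
  (∀ i : I, #(Set.Iic i) ≤ κ) → ∀ F : Set (I →₀ ℤ), κ < #F →
  ∃ r : I →₀ ℤ, ∃ F' : Set (I →₀ ℤ), F' ⊆ F ∧ κ < #F' ∧
    ∀ ξ : I, #{v : I →₀ ℤ | v ∈ F' ∧ ∃ y ∈ (v - r).support, y ≤ ξ} ≤ κ

/-- The combinatorial lemma. -/
def S_COMB : Prop := ∀ (κ : Cardinal.{0}) (E I : Type) [LinearOrder I] (c : I → ℕ → E),
  ℵ₀ ≤ κ → #E ≤ κ → Function.Injective c → (∀ i : I, #(Set.Iic i) ≤ κ) →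
  ∀ A : AddSubgroup (I →₀ ℤ), κ < #A →
  ∃ a ∈ A, ∃ b ∈ A, (∀ x ∈ a.support, ∀ y ∈ b.support, x < y) ∧
    -1 < Bil (K c) a b ∧ Bil (K c) a b < 0

/-- The set theory: a tree of height `ω` with `≤ κ` nodes and more than `κ` branches. -/
def S_TREE : Prop := ∀ κ₀ : Cardinal.{0}, ∃ (κ : Cardinal.{0}) (E I : Type) (_ : LinearOrder I)
  (c : I → ℕ → E), κ₀ ≤ κ ∧ ℵ₀ ≤ κ ∧ #E ≤ κ ∧ Function.Injective c ∧ κ < #I ∧
    ∀ i : I, #(Set.Iic i) ≤ κ

/-! ## The group -/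

/-- The central extension of `A` by `C` with the cocycle `f`. -/
@[ext] structure Ext {A C : Type} [AddCommGroup A] [AddCommGroup C] (f : A →+ A →+ C) where
  /-- first coordinate -/
  v : A
  /-- central coordinate -/
  c : C

section group
variable {A C : Type} [AddCommGroup A] [AddCommGroup C] (f : A →+ A →+ C)

instance : Mul (Ext f) := ⟨fun g h => ⟨g.v + h.v, g.c + h.c + f g.v h.v⟩⟩
instance : One (Ext f) := ⟨⟨0, 0⟩⟩
instance : Inv (Ext f) := ⟨fun g => ⟨-g.v, -g.c + f g.v g.v⟩⟩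

@[simp] lemma mul_v (g h : Ext f) : (g * h).v = g.v + h.v := rfl
@[simp] lemma mul_c (g h : Ext f) : (g * h).c = g.c + h.c + f g.v h.v := rfl
@[simp] lemma one_v : (1 : Ext f).v = 0 := rfl
@[simp] lemma one_c : (1 : Ext f).c = 0 := rfl
@[simp] lemma inv_v (g : Ext f) : (g⁻¹).v = -g.v := rfl
@[simp] lemma inv_c (g : Ext f) : (g⁻¹).c = -g.c + f g.v g.v := rfl

instance : Group (Ext f) :=
  Group.ofLeftAxioms
    (by intro a b c; ext <;> simp <;> abel)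
    (by intro a; ext <;> simp)
    (by intro a; ext <;> simp)

end group

/-- The group theorem. -/
def S_GRP : Prop := ∀ κ₀ : Cardinal.{0}, ∃ κ : Cardinal.{0}, κ₀ ≤ κ ∧ ℵ₀ ≤ κ ∧
  ∃ (G : Type) (_ : Group G) (z : G), (∀ g : G, g * z = z * g) ∧ z ≠ 1 ∧ κ < #G ∧
    ∀ H : Subgroup G, z ∉ H → #H ≤ κ

end Pool.Agent.K1H95.EO
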