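import Pool.Agent.K1H95.EO.Stm

set_option autoImplicit false

open Cardinal

namespace Pool.Agent.K1H95.EO

/-- Assembly: the graph theorem and the group theorem give the frozen statement. -/
theorem main_of (hG : S_GRAPH) (hR : S_GRP) :
    ∀ κ : Cardinal.{0}, ∃ (G : Type) (_ : Group G),
      ∀ (V : Type) (X : SimpleGraph V),
        Nonempty (G ≃* SimpleGraph.Iso X X) →
        ∀ S : Set (Sym2 V), S ⊆ X.edgeSet →
          (∀ e ∈ X.edgeSet, ∃ s ∈ S, ∃ φ : SimpleGraph.Iso X X, Sym2.map (⇑φ) s = e) →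
          κ < Cardinal.mk S := by
  intro κ₀
  obtain ⟨κ, h0, hω, G, iG, z, hz, hz1, hc, hH⟩ := hR κ₀
  refine ⟨G, iG, ?_⟩
  rintro V X ⟨e⟩ S hS hcov
  refine lt_of_le_of_lt h0 ?_
  refine hG κ V X (e z) hω ?_ ?_ ?_ ?_ S hcov
  · rwa [← Cardinal.mk_congr e.toEquiv]
  · intro g
    obtain ⟨g', rfl⟩ := e.surjective g
    rw [← map_mul, ← map_mul, hz]
  · intro h
    exact hz1 (e.injective (by rw [h, map_one]))
  · intro H hzH
    have h1 : z ∉ H.comap e.toMonoidHom := by
      intro h
      exact hzH (by simpa [Subgroup.mem_comap] using h)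
    have h2 := hH _ h1
    refine le_trans ?_ h2
    refine Cardinal.mk_le_of_injective (f := fun x : H =>
      (⟨e.symm x.1, by simp [Subgroup.mem_comap]⟩ : H.comap e.toMonoidHom)) ?_
    intro x y hxy
    have := congrArg Subtype.val hxy
    exact Subtype.ext (e.symm.injective this)

end Pool.Agent.K1H95.EO
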